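import Mathlib

/-!
# A Banach space with a Markushevich basis and no equivalent locally uniformly rotund norm

Negative answer to Q1 (John and Zizler) of MP_ea77cd_an, over the reals and over the complex numbers.

Let `B` be the unit ball of `l_inf` and let `Q = l_1(B x N)` with unit vectors `q (h, n)`.  The space
is `E = l_inf x Q`.  Its Markushevich basis consists of the vectors `(e_a, 0)`, `a` in `N`, and
`(- 2 ^ n h 1_[n, oo), q (h, n))`; the functionals are `(h', v) ↦ h' a + theta_a v`, where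
`theta_a (q (h, n)) = 2 ^ n h a` for `n ≤ a` and `0` for `n > a`, and the coordinates of `v`.
The space contains `l_inf`, which has no equivalent locally uniformly rotund norm.
-/

set_option autoImplicit false

open Filter Topology Set
open scoped ENNReal

namespace Pool.Agent.Results.MP_ea77cd_an.MBasisNoLUR

/-- A (semi)norm is locally uniformly rotund: if `N x = N (u n) = 1` and `N (u n + x)` tends to `2`,
then `N (u n - x)` tends to `0`. -/
def IsLUR {𝕜 E : Type} [RCLike 𝕜] [AddCommGroup E] [Module 𝕜 E] (N : Seminorm 𝕜 E) : Prop :=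
  ∀ (x : E) (u : ℕ → E), N x = 1 → (∀ n, N (u n) = 1) →
    Tendsto (fun n => N (u n + x)) atTop (𝓝 2) → Tendsto (fun n => N (u n - x)) atTop (𝓝 0)

section Abstract

variable {𝕜 E : Type} [RCLike 𝕜] [AddCommGroup E] [Module 𝕜 E]

theorem not_lur_of (N : Seminorm 𝕜 E) (x : E) (y : ℕ → E) (hx : 0 < N x) (hy : ∀ n, 0 < N (y n))
    (h1 : Tendsto (fun n => N (y n)) atTop (𝓝 (N x)))
    (h2 : Tendsto (fun n => N (y n + x)) atTop (𝓝 (2 * N x)))
    {c : ℝ} (hc : 0 < c) (h3 : ∀ n, c ≤ N (y n - x)) : ¬ IsLUR N := by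
  intro hl
  have hns : ∀ (a : ℝ) (z : E), N (((a : ℝ) : 𝕜) • z) = |a| * N z := by
    intro a z
    rw [map_smul_eq_mul, RCLike.norm_ofReal]
  set r := N x with hr
  have hrinv : 0 < r⁻¹ := inv_pos.2 hx
  -- the error term
  have herr : ∀ n, N ((((N (y n))⁻¹ - r⁻¹ : ℝ) : 𝕜) • y n) = |1 - N (y n) * r⁻¹| := by
    intro n
    rw [hns]
    have h0 := hy n
    have h1 : |(N (y n))⁻¹ - r⁻¹| * N (y n) = |((N (y n))⁻¹ - r⁻¹) * N (y n)| := by
      rw [abs_mul, abs_of_pos h0]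
    have h2 : ((N (y n))⁻¹ - r⁻¹) * N (y n) = 1 - N (y n) * r⁻¹ := by
      rw [sub_mul, inv_mul_cancel₀ h0.ne', mul_comm r⁻¹]
    rw [h1, h2]
  have herr0 : Tendsto (fun n => |1 - N (y n) * r⁻¹|) atTop (𝓝 0) := by
    have h4 : Tendsto (fun n => 1 - N (y n) * r⁻¹) atTop (𝓝 (1 - r * r⁻¹)) :=
      (h1.mul_const _).const_sub 1
    rw [mul_inv_cancel₀ hx.ne', sub_self] at h4
    simpa using h4.abs
  have key := hl (((r⁻¹ : ℝ) : 𝕜) • x) (fun n => (((N (y n))⁻¹ : ℝ) : 𝕜) • y n)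
    (by rw [hns, abs_of_pos hrinv, ← hr, inv_mul_cancel₀ hx.ne'])
    (fun n => by rw [hns, abs_of_pos (inv_pos.2 (hy n)), inv_mul_cancel₀ (hy n).ne'])
  have heq1 : ∀ n, (((N (y n))⁻¹ : ℝ) : 𝕜) • y n + ((r⁻¹ : ℝ) : 𝕜) • x =
      ((r⁻¹ : ℝ) : 𝕜) • (y n + x) + (((N (y n))⁻¹ - r⁻¹ : ℝ) : 𝕜) • y n := by
    intro n
    rw [RCLike.ofReal_sub]
    module
  have heq2 : ∀ n, ((r⁻¹ : ℝ) : 𝕜) • (y n - x) =
      ((((N (y n))⁻¹ : ℝ) : 𝕜) • y n - ((r⁻¹ : ℝ) : 𝕜) • x) -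
        (((N (y n))⁻¹ - r⁻¹ : ℝ) : 𝕜) • y n := by
    intro n
    rw [RCLike.ofReal_sub]
    module
  have hlim : Tendsto (fun n => N ((((N (y n))⁻¹ : ℝ) : 𝕜) • y n + ((r⁻¹ : ℝ) : 𝕜) • x))
      atTop (𝓝 2) := by
    have h4 : Tendsto (fun n => r⁻¹ * N (y n + x)) atTop (𝓝 2) := by
      have h5 := h2.const_mul r⁻¹
      have h6 : r⁻¹ * (2 * r) = 2 := by field_simp
      rwa [h6] at h5
    rw [tendsto_iff_norm_sub_tendsto_zero] at h4 ⊢
    have h7 : Tendsto (fun n => |1 - N (y n) * r⁻¹| + ‖r⁻¹ * N (y n + x) - 2‖) atTop (𝓝 0) := by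
      simpa using herr0.add h4
    refine squeeze_zero (fun n => norm_nonneg _) (fun n => ?_) h7
    have h8 : |N ((((N (y n))⁻¹ : ℝ) : 𝕜) • y n + ((r⁻¹ : ℝ) : 𝕜) • x) - r⁻¹ * N (y n + x)| ≤
        |1 - N (y n) * r⁻¹| := by
      rw [heq1 n, ← herr n]
      have h9 : r⁻¹ * N (y n + x) = N (((r⁻¹ : ℝ) : 𝕜) • (y n + x)) := by
        rw [hns, abs_of_pos hrinv]
      rw [h9, abs_le]
      constructor
      · have := map_sub_le_add N (((r⁻¹ : ℝ) : 𝕜) • (y n + x) + (((N (y n))⁻¹ - r⁻¹ : ℝ) : 𝕜) • y n)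
          ((((N (y n))⁻¹ - r⁻¹ : ℝ) : 𝕜) • y n)
        rw [add_sub_cancel_right] at this
        linarith
      · have := map_add_le_add N (((r⁻¹ : ℝ) : 𝕜) • (y n + x)) ((((N (y n))⁻¹ - r⁻¹ : ℝ) : 𝕜) • y n)
        linarith
    rw [Real.norm_eq_abs, Real.norm_eq_abs]
    calc |N ((((N (y n))⁻¹ : ℝ) : 𝕜) • y n + ((r⁻¹ : ℝ) : 𝕜) • x) - 2|
        = |(N ((((N (y n))⁻¹ : ℝ) : 𝕜) • y n + ((r⁻¹ : ℝ) : 𝕜) • x) - r⁻¹ * N (y n + x)) +
            (r⁻¹ * N (y n + x) - 2)| := by ring_nf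
      _ ≤ _ := (abs_add_le _ _).trans (add_le_add h8 le_rfl)
  have h0 := key hlim
  have hsum := h0.add herr0
  rw [add_zero] at hsum
  have hbound : ∀ n, r⁻¹ * c ≤ N ((((N (y n))⁻¹ : ℝ) : 𝕜) • y n - ((r⁻¹ : ℝ) : 𝕜) • x) +
      |1 - N (y n) * r⁻¹| := by
    intro n
    have h4 : r⁻¹ * N (y n - x) = N (((r⁻¹ : ℝ) : 𝕜) • (y n - x)) := by
      rw [hns, abs_of_pos hrinv]
    have h5 : r⁻¹ * c ≤ r⁻¹ * N (y n - x) := mul_le_mul_of_nonneg_left (h3 n) hrinv.le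
    rw [h4, heq2 n] at h5
    refine h5.trans ((map_sub_le_add N _ _).trans ?_)
    rw [herr n]
  have := ge_of_tendsto' hsum hbound
  have h6 : 0 < r⁻¹ * c := mul_pos hrinv hc
  linarith

end Abstract

section LInf

variable (𝕜 : Type) [RCLike 𝕜]

/-- the space `l_inf` -/
abbrev Li : Type := lp (fun _ : ℕ => 𝕜) ∞

variable {𝕜}

theorem li_apply_le (h : Li 𝕜) (i : ℕ) : ‖h i‖ ≤ ‖h‖ :=
  lp.norm_apply_le_norm ENNReal.top_ne_zero h i

open Classical in
/-- restriction of a bounded sequence to a set -/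
noncomputable def res (M : Set ℕ) (h : Li 𝕜) : Li 𝕜 :=
  ⟨fun i => if i ∈ M then h i else 0, memℓp_infty ⟨‖h‖, by
    rintro _ ⟨i, rfl⟩
    by_cases hi : i ∈ M
    · simpa [hi] using li_apply_le h i
    · simp [hi]⟩⟩

theorem res_mem {M : Set ℕ} {i : ℕ} (hi : i ∈ M) (h : Li 𝕜) : (res M h) i = h i := by
  classical
  exact if_pos hi

theorem res_not_mem {M : Set ℕ} {i : ℕ} (hi : i ∉ M) (h : Li 𝕜) : (res M h) i = 0 := by
  classical
  exact if_neg hi

/-- all coordinates have absolute value at most one -/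
def UB (x : Li 𝕜) : Prop := ∀ i, ‖x i‖ ≤ 1

/-- `y` has coordinates bounded by one and agrees with `x` off `M` -/
def FF (x : Li 𝕜) (M : Set ℕ) (y : Li 𝕜) : Prop := UB y ∧ ∀ i, i ∉ M → y i = x i

theorem UB.norm_le {x : Li 𝕜} (hx : UB x) : ‖x‖ ≤ 1 := lp.norm_le_of_forall_le zero_le_one hx

theorem add_ap (x y : Li 𝕜) (i : ℕ) : (x + y) i = x i + y i := by
  rw [lp.coeFn_add]; rfl

theorem sub_ap (x y : Li 𝕜) (i : ℕ) : (x - y) i = x i - y i := by
  rw [lp.coeFn_sub]; rfl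

theorem smul_ap (a : 𝕜) (y : Li 𝕜) (i : ℕ) : (a • y) i = a * y i := by
  rw [lp.coeFn_smul]; rfl

theorem step (N : Seminorm 𝕜 (Li 𝕜)) {C : ℝ} (hC : ∀ y, N y ≤ C * ‖y‖) (x : Li 𝕜) (hx : UB x)
    (M : Set ℕ) (hM : M.Infinite) (n : ℕ) {ε : ℝ} (hε : 0 < ε) :
    ∃ (x' : Li 𝕜) (M' : Set ℕ), UB x' ∧ M'.Infinite ∧ M' ⊆ M ∧ (∀ i ∈ M', n < i) ∧
      (∀ i, i ∉ M → x' i = x i) ∧ (∀ i ∈ M', x' i = 0) ∧ ∀ y, FF x M y → N y ≤ N x' + ε := by
  classical
  have hC0 : 0 ≤ C := by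
    have h1 := hC (lp.single ∞ 0 (1 : 𝕜))
    rw [lp.norm_single (by simp)] at h1
    have h2 := apply_nonneg N (lp.single ∞ 0 (1 : 𝕜))
    simp at h1
    linarith
  have hbd : BddAbove (N '' {y | FF x M y}) := by
    refine ⟨C, ?_⟩
    rintro _ ⟨y, hy, rfl⟩
    refine (hC y).trans ?_
    exact mul_le_of_le_one_right hC0 hy.1.norm_le
  have hne : (N '' {y | FF x M y}).Nonempty := ⟨_, x, ⟨hx, fun _ _ => rfl⟩, rfl⟩
  obtain ⟨_, ⟨z, hz, rfl⟩, hzS⟩ := exists_lt_of_lt_csSup hne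
    (show sSup (N '' {y | FF x M y}) - ε / 2 < sSup (N '' {y | FF x M y}) by linarith)
  obtain ⟨K, hK⟩ := exists_nat_gt (C / (ε / 2))
  have hK' : C < K * (ε / 2) := by
    rwa [div_lt_iff₀ (by positivity)] at hK
  let e := hM.natEmbedding
  let A : ℕ → Set ℕ := fun i => Set.range (fun j => ((e (Nat.pair i j) : M) : ℕ))
  have hAM : ∀ i, A i ⊆ M := by
    rintro i _ ⟨j, rfl⟩
    exact (e (Nat.pair i j)).2
  have hinj : ∀ a b, ((e a : M) : ℕ) = ((e b : M) : ℕ) → a = b := by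
    intro a b hab
    exact e.injective (Subtype.ext hab)
  have hAinf : ∀ i, (A i).Infinite := by
    intro i
    refine Set.infinite_range_of_injective ?_
    intro j j' hjj
    have h1 := hinj _ _ hjj
    have h2 := congrArg Nat.unpair h1
    rw [Nat.unpair_pair, Nat.unpair_pair] at h2
    exact (Prod.ext_iff.1 h2).2
  have hAdisj : ∀ i i' m, m ∈ A i → m ∈ A i' → i = i' := by
    rintro i i' m ⟨j, hj⟩ ⟨j', hj'⟩
    have h1 := hinj _ _ (hj.trans hj'.symm)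
    have h2 := congrArg Nat.unpair h1
    rw [Nat.unpair_pair, Nat.unpair_pair] at h2
    exact (Prod.ext_iff.1 h2).1
  have hex : ∃ i ∈ Finset.range K, N z - ε / 2 ≤ N (z - res (A i) z) := by
    by_contra hcon
    push Not at hcon
    have h1 : ∑ i ∈ Finset.range K, N (z - res (A i) z) ≤ K * (N z - ε / 2) := by
      have h2 := Finset.sum_le_sum fun i hi => (hcon i hi).le
      rwa [Finset.sum_const, Finset.card_range, nsmul_eq_mul] at h2
    have h2 : N (∑ i ∈ Finset.range K, (z - res (A i) z)) ≤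
        ∑ i ∈ Finset.range K, N (z - res (A i) z) := by
      have : ∀ s : Finset ℕ, N (∑ i ∈ s, (z - res (A i) z)) ≤ ∑ i ∈ s, N (z - res (A i) z) := by
        intro s
        induction s using Finset.induction_on with
        | empty => simp
        | insert a s ha ih =>
          rw [Finset.sum_insert ha, Finset.sum_insert ha]
          exact (map_add_le_add N _ _).trans (add_le_add le_rfl ih)
      exact this _
    have h3 : ∑ i ∈ Finset.range K, (z - res (A i) z) =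
        ((K : ℕ) : 𝕜) • z - ∑ i ∈ Finset.range K, res (A i) z := by
      rw [Finset.sum_sub_distrib, Finset.sum_const, Finset.card_range, Nat.cast_smul_eq_nsmul]
    have h4 : ‖∑ i ∈ Finset.range K, res (A i) z‖ ≤ 1 := by
      refine lp.norm_le_of_forall_le zero_le_one fun m => ?_
      rw [lp.coeFn_sum, Finset.sum_apply]
      by_cases hm : ∃ i ∈ Finset.range K, m ∈ A i
      · obtain ⟨i, hi, hmi⟩ := hm
        rw [Finset.sum_eq_single_of_mem i hi, res_mem hmi]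
        · exact hz.1 m
        · intro i' _ hne
          exact res_not_mem (fun h => hne (hAdisj _ _ _ h hmi)) z
      · push Not at hm
        rw [Finset.sum_eq_zero]
        · simp
        · intro i hi
          exact res_not_mem (hm i hi) z
    have h5 : (K : ℝ) * N z ≤ N (∑ i ∈ Finset.range K, (z - res (A i) z)) + C := by
      have h6 := map_add_le_add N (∑ i ∈ Finset.range K, (z - res (A i) z))
        (∑ i ∈ Finset.range K, res (A i) z)
      rw [h3, sub_add_cancel, map_smul_eq_mul, RCLike.norm_natCast, ← h3] at h6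
      refine h6.trans (add_le_add le_rfl ?_)
      exact (hC _).trans (mul_le_of_le_one_right hC0 h4)
    nlinarith
  obtain ⟨i, -, hi⟩ := hex
  refine ⟨z - res (A i) z, A i ∩ {m | n < m}, ?_, ?_, ?_, ?_, ?_, ?_, ?_⟩
  · intro m
    rw [sub_ap]
    by_cases hm : m ∈ A i
    · rw [res_mem hm]; simp
    · rw [res_not_mem hm, sub_zero]; exact hz.1 m
  · have h1 : A i ∩ {m | n < m} = A i \ {m | m ≤ n} := by
      ext m; simp [not_le]
    rw [h1]
    exact (hAinf i).sdiff (Set.finite_le_nat n)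
  · exact Set.inter_subset_left.trans (hAM i)
  · exact fun m hm => hm.2
  · intro m hm
    rw [sub_ap, res_not_mem (fun h => hm (hAM i h)), sub_zero]
    exact hz.2 m hm
  · intro m hm
    rw [sub_ap, res_mem hm.1, sub_self]
  · intro y hy
    have h1 : N y ≤ sSup (N '' {y | FF x M y}) := le_csSup hbd ⟨y, hy, rfl⟩
    linarith

/-- `l_inf` has no equivalent locally uniformly rotund norm -/
theorem linf_no_lur (N : Seminorm 𝕜 (Li 𝕜)) {c C : ℝ} (hc : 0 < c)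
    (hN : ∀ y, c * ‖y‖ ≤ N y ∧ N y ≤ C * ‖y‖) : ¬ IsLUR N := by
  classical
  have key : ∀ (n : ℕ) (s : {p : Li 𝕜 × Set ℕ // UB p.1 ∧ p.2.Infinite}),
      ∃ s' : {p : Li 𝕜 × Set ℕ // UB p.1 ∧ p.2.Infinite}, s'.1.2 ⊆ s.1.2 ∧
        (∀ i ∈ s'.1.2, n < i) ∧ (∀ i, i ∉ s.1.2 → s'.1.1 i = s.1.1 i) ∧
        (∀ i ∈ s'.1.2, s'.1.1 i = 0) ∧ ∀ y, FF s.1.1 s.1.2 y → N y ≤ N s'.1.1 + (1 / 2) ^ n := by
    intro n s
    obtain ⟨x', M', h1, h2, h3, h4, h5, h6, h7⟩ :=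
      step N (fun y => (hN y).2) s.1.1 s.2.1 s.1.2 s.2.2 n (ε := (1 / 2) ^ n) (by positivity)
    exact ⟨⟨(x', M'), h1, h2⟩, h3, h4, h5, h6, h7⟩
  choose g hg1 hg2 hg3 hg4 hg5 using key
  let s0 : {p : Li 𝕜 × Set ℕ // UB p.1 ∧ p.2.Infinite} :=
    ⟨(0, Set.univ), fun i => by simp, Set.infinite_univ⟩
  let s : ℕ → {p : Li 𝕜 × Set ℕ // UB p.1 ∧ p.2.Infinite} := fun n => Nat.rec s0 (fun n t => g n t) n
  have hs : ∀ n, s (n + 1) = g n (s n) := fun n => rfl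
  set X : ℕ → Li 𝕜 := fun n => (s n).1.1 with hX
  set M : ℕ → Set ℕ := fun n => (s n).1.2 with hM
  have XU : ∀ n, UB (X n) := fun n => (s n).2.1
  have Minf : ∀ n, (M n).Infinite := fun n => (s n).2.2
  have Msub : ∀ n, M (n + 1) ⊆ M n := fun n => hg1 n (s n)
  have Mgt : ∀ n, ∀ i ∈ M (n + 1), n < i := fun n => hg2 n (s n)
  have Xeq : ∀ n i, i ∉ M n → X (n + 1) i = X n i := fun n => hg3 n (s n)
  have Xzero : ∀ n, ∀ i ∈ M (n + 1), X (n + 1) i = 0 := fun n => hg4 n (s n)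
  have Xmax : ∀ n y, FF (X n) (M n) y → N y ≤ N (X (n + 1)) + (1 / 2) ^ n := fun n => hg5 n (s n)
  have Manti : ∀ m n, m ≤ n → M n ⊆ M m := by
    intro m n hmn
    induction hmn with
    | refl => exact subset_rfl
    | step _ ih => exact (Msub _).trans ih
  have Xconst : ∀ m n i, m ≤ n → i ∉ M m → X n i = X m i := by
    intro m n i hmn hi
    induction hmn with
    | refl => rfl
    | @step k hk ih => exact (Xeq k i fun h => hi (Manti m k hk h)).trans ih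
  have hnot : ∀ i, i ∉ M (i + 1) := fun i h => lt_irrefl i (Mgt i i h)
  -- all elements of the `n+1`-st set have almost the same norm
  have hclose : ∀ n y, FF (X (n + 1)) (M (n + 1)) y → |N y - N (X (n + 1))| ≤ (1 / 2) ^ n := by
    intro n y hy
    have hsub : ∀ w, FF (X (n + 1)) (M (n + 1)) w → FF (X n) (M n) w := by
      intro w hw
      refine ⟨hw.1, fun i hi => ?_⟩
      rw [hw.2 i fun h => hi (Msub n h), Xeq n i hi]
    have hup := Xmax n y (hsub y hy)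
    have hy' : FF (X (n + 1)) (M (n + 1)) ((2 : 𝕜) • X (n + 1) - y) := by
      constructor
      · intro i
        rw [sub_ap, smul_ap]
        by_cases hi : i ∈ M (n + 1)
        · rw [Xzero n i hi, mul_zero, zero_sub, norm_neg]; exact hy.1 i
        · rw [hy.2 i hi]
          have : (2 : 𝕜) * X (n + 1) i - X (n + 1) i = X (n + 1) i := by ring
          rw [this]; exact XU (n + 1) i
      · intro i hi
        rw [sub_ap, smul_ap, hy.2 i hi]; ring
    have hup' := Xmax n _ (hsub _ hy')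
    have h1 := map_add_le_add N ((2 : 𝕜) • X (n + 1) - y) y
    rw [sub_add_cancel, map_smul_eq_mul] at h1
    have h2 : ‖(2 : 𝕜)‖ = 2 := by simp
    rw [h2] at h1
    rw [abs_le]
    constructor <;> linarith
  -- the limit
  let x : Li 𝕜 := ⟨fun i => X (i + 1) i, memℓp_infty ⟨1, by
    rintro _ ⟨i, rfl⟩; exact XU (i + 1) i⟩⟩
  have xdef : ∀ i, x i = X (i + 1) i := fun i => rfl
  have xU : UB x := fun i => by rw [xdef]; exact XU (i + 1) i
  have xF : ∀ n i, i ∉ M n → x i = X n i := by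
    intro n i hi
    rw [xdef]
    rcases le_total n (i + 1) with h | h
    · exact Xconst n (i + 1) i h hi
    · exact (Xconst (i + 1) n i h (hnot i)).symm
  -- the perturbations
  have hpick : ∀ t : 𝕜, ∃ w : 𝕜, ‖w‖ = 1 ∧ 1 ≤ ‖w - t‖ := by
    intro t
    by_cases h : 1 ≤ ‖(1 : 𝕜) - t‖
    · exact ⟨1, by simp, h⟩
    · refine ⟨-1, by simp, ?_⟩
      push Not at h
      have h1 : (2 : ℝ) ≤ ‖(1 : 𝕜) - t‖ + ‖(-1 : 𝕜) - t‖ := by
        have h2 := norm_sub_le ((1 : 𝕜) - t) ((-1 : 𝕜) - t)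
        have h3 : (1 : 𝕜) - t - ((-1 : 𝕜) - t) = 2 := by ring
        rw [h3] at h2
        simpa using h2
      linarith
  have hy : ∀ n, ∃ y : Li 𝕜, FF (X (n + 1)) (M (n + 1)) y ∧ 1 ≤ ‖y‖ ∧ 1 ≤ ‖y - x‖ := by
    intro n
    obtain ⟨i, hi⟩ := (Minf (n + 1)).nonempty
    obtain ⟨w, hw1, hw2⟩ := hpick (x i)
    let y : Li 𝕜 := ⟨fun j => if j = i then w else x j, memℓp_infty ⟨1, by
      rintro _ ⟨j, rfl⟩
      by_cases hj : j = i
      · simp [hj, hw1]
      · simpa [hj] using xU j⟩⟩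
    have hyi : y i = w := by
      change (if i = i then w else x i) = w
      rw [if_pos rfl]
    have hyj : ∀ j, j ≠ i → y j = x j := by
      intro j hj
      change (if j = i then w else x j) = x j
      rw [if_neg hj]
    refine ⟨y, ⟨?_, ?_⟩, ?_, ?_⟩
    · intro j
      by_cases hj : j = i
      · rw [hj, hyi, hw1]
      · rw [hyj j hj]; exact xU j
    · intro j hj
      rw [hyj j (fun h => hj (h ▸ hi))]
      exact xF (n + 1) j hj
    · have := li_apply_le y i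
      rwa [hyi, hw1] at this
    · have := li_apply_le (y - x) i
      rw [sub_ap, hyi] at this
      exact hw2.trans this
  choose y hyF hy1 hy2 using hy
  have hxF : ∀ n, FF (X (n + 1)) (M (n + 1)) x := fun n => ⟨xU, xF (n + 1)⟩
  have hmF : ∀ n, FF (X (n + 1)) (M (n + 1)) (((1 / 2 : ℝ) : 𝕜) • (y n + x)) := by
    intro n
    constructor
    · intro i
      rw [smul_ap, add_ap, norm_mul, RCLike.norm_ofReal]
      have h1 := norm_add_le (y n i) (x i)
      have h2 := (hyF n).1 i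
      have h3 := xU i
      have h4 : |(1 / 2 : ℝ)| = 1 / 2 := abs_of_pos (by norm_num)
      rw [h4]
      linarith
    · intro i hi
      rw [smul_ap, add_ap, (hyF n).2 i hi, xF (n + 1) i hi, ← two_mul, ← mul_assoc]
      have : (((1 / 2 : ℝ) : 𝕜)) * 2 = 1 := by
        push_cast
        norm_num
      rw [this, one_mul]
  have hpow : Tendsto (fun n : ℕ => 2 * (1 / 2 : ℝ) ^ n) atTop (𝓝 0) := by
    have := (tendsto_pow_atTop_nhds_zero_of_lt_one (r := (1 / 2 : ℝ)) (by norm_num)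
      (by norm_num)).const_mul 2
    simpa using this
  have hya : ∀ n, |N (y n) - N x| ≤ 2 * (1 / 2) ^ n := by
    intro n
    have h1 := hclose n _ (hyF n)
    have h2 := hclose n _ (hxF n)
    rw [abs_le] at *
    constructor <;> linarith
  have hyb : ∀ n, |N (y n + x) - 2 * N x| ≤ 2 * (2 * (1 / 2) ^ n) := by
    intro n
    have h1 := hclose n _ (hmF n)
    have h2 := hclose n _ (hxF n)
    rw [map_smul_eq_mul, RCLike.norm_ofReal] at h1
    have h4 : |(1 / 2 : ℝ)| = 1 / 2 := abs_of_pos (by norm_num)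
    rw [h4] at h1
    rw [abs_le] at *
    constructor <;> linarith
  have hNy : ∀ n, c ≤ N (y n) := fun n => by
    have := (hN (y n)).1
    nlinarith [hy1 n]
  have l1 : Tendsto (fun n => N (y n)) atTop (𝓝 (N x)) := by
    rw [tendsto_iff_norm_sub_tendsto_zero]
    exact squeeze_zero (fun n => norm_nonneg _) (fun n => by rw [Real.norm_eq_abs]; exact hya n) hpow
  have l2 : Tendsto (fun n => N (y n + x)) atTop (𝓝 (2 * N x)) := by
    rw [tendsto_iff_norm_sub_tendsto_zero]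
    have hpow2 := hpow.const_mul 2
    rw [mul_zero] at hpow2
    exact squeeze_zero (fun n => norm_nonneg _) (fun n => by rw [Real.norm_eq_abs]; exact hyb n) hpow2
  have hx0 : 0 < N x := lt_of_lt_of_le hc (ge_of_tendsto' l1 hNy)
  exact not_lur_of N x y hx0 (fun n => hc.trans_le (hNy n)) l1 l2 hc
    (fun n => by
      have := (hN (y n - x)).1
      nlinarith [hy2 n])

end LInf

section LOne

variable (𝕜 : Type) [RCLike 𝕜] (Γ : Type)

/-- the space `l_1(Γ)` -/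
abbrev L1 : Type := lp (fun _ : Γ => 𝕜) 1

variable {𝕜 Γ}

theorem l1_hasSum (v : L1 𝕜 Γ) : HasSum (fun γ => ‖v γ‖) ‖v‖ := by
  have h := lp.hasSum_norm (p := 1) (by simp) v
  simpa using h

theorem wmul_summable {w : Γ → 𝕜} {K : ℝ} (hw : ∀ γ, ‖w γ‖ ≤ K) (v : L1 𝕜 Γ) :
    Summable fun γ => w γ * v γ := by
  refine Summable.of_norm_bounded ((l1_hasSum v).summable.mul_left K) fun γ => ?_
  rw [norm_mul]
  exact mul_le_mul_of_nonneg_right (hw γ) (norm_nonneg _)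

/-- the functional on `l_1(Γ)` given by a bounded family of weights -/
noncomputable def wf (w : Γ → 𝕜) (K : ℝ) (hw : ∀ γ, ‖w γ‖ ≤ K) : L1 𝕜 Γ →L[𝕜] 𝕜 :=
  LinearMap.mkContinuous
    { toFun := fun v => ∑' γ, w γ * v γ
      map_add' := by
        intro u v
        rw [← (wmul_summable hw u).tsum_add (wmul_summable hw v)]
        refine tsum_congr fun γ => ?_
        rw [lp.coeFn_add, Pi.add_apply, mul_add]
      map_smul' := by
        intro a v
        rw [RingHom.id_apply, smul_eq_mul, ← tsum_mul_left]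
        refine tsum_congr fun γ => ?_
        rw [lp.coeFn_smul, Pi.smul_apply, smul_eq_mul]
        ring } K (by
    intro v
    have h1 : HasSum (fun γ => K * ‖v γ‖) (K * ‖v‖) := (l1_hasSum v).mul_left K
    refine tsum_of_norm_bounded h1 fun γ => ?_
    rw [norm_mul]
    exact mul_le_mul_of_nonneg_right (hw γ) (norm_nonneg _))

theorem wf_single [DecidableEq Γ] (w : Γ → 𝕜) (K : ℝ) (hw : ∀ γ, ‖w γ‖ ≤ K) (γ : Γ) (a : 𝕜) :
    wf w K hw (lp.single 1 γ a) = w γ * a := by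
  change ∑' δ, w δ * (lp.single (E := fun _ : Γ => 𝕜) 1 γ a) δ = w γ * a
  rw [tsum_eq_single γ, lp.single_apply_self]
  intro δ hδ
  rw [lp.single_apply_ne _ _ _ hδ, mul_zero]

end LOne

section Main

variable (𝕜 : Type) [RCLike 𝕜]

/-- pairs of a vector in the unit ball of `l_inf` and a natural number -/
abbrev Idx : Type := {h : Li 𝕜 // ‖h‖ ≤ 1} × ℕ

/-- the space: `l_inf` plus `l_1` of the index set -/
abbrev EE : Type := Li 𝕜 × L1 𝕜 (Idx 𝕜)

variable {𝕜}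

/-- weights of the functional `theta_a` -/
noncomputable def wt (a : ℕ) (γ : Idx 𝕜) : 𝕜 := if γ.2 ≤ a then 2 ^ γ.2 * γ.1.1 a else 0

theorem wt_bound (a : ℕ) (γ : Idx 𝕜) : ‖wt a γ‖ ≤ 2 ^ a := by
  unfold wt
  split_ifs with h
  · rw [norm_mul, norm_pow]
    have h2 : ‖(2 : 𝕜)‖ = 2 := by simp
    rw [h2]
    have h3 : ‖γ.1.1 a‖ ≤ 1 := (li_apply_le _ _).trans γ.1.2
    calc (2 : ℝ) ^ γ.2 * ‖γ.1.1 a‖ ≤ 2 ^ γ.2 * 1 :=
          mul_le_mul_of_nonneg_left h3 (by positivity)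
      _ ≤ 2 ^ a := by rw [mul_one]; exact pow_le_pow_right₀ (by norm_num) h
  · simp

open Classical in
/-- the unit vectors of `l_1(Idx)` -/
noncomputable def qv (γ : Idx 𝕜) : L1 𝕜 (Idx 𝕜) := lp.single 1 γ 1

theorem qv_self (γ : Idx 𝕜) : (qv γ) γ = 1 := by
  classical
  exact lp.single_apply_self _ _ _

theorem qv_ne {γ δ : Idx 𝕜} (h : δ ≠ γ) : (qv γ) δ = 0 := by
  classical
  exact lp.single_apply_ne _ _ _ h

theorem qv_norm (γ : Idx 𝕜) : ‖qv γ‖ = 1 := by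
  classical
  have h1 : ‖qv γ‖ = ‖(1 : 𝕜)‖ := lp.norm_single (by simp) _ _
  rw [h1, norm_one]

theorem qv_hasSum (v : L1 𝕜 (Idx 𝕜)) : HasSum (fun γ => v γ • qv γ) v := by
  classical
  have h1 := (lp.hasSum_single (E := fun _ : Idx 𝕜 => 𝕜) (p := 1) (by simp) v)
  have h2 : (fun γ => v γ • qv γ) = fun γ => lp.single (E := fun _ : Idx 𝕜 => 𝕜) 1 γ (v γ) := by
    funext γ
    refine lp.ext (funext fun δ => ?_)
    change v γ * (qv γ) δ = (lp.single (E := fun _ : Idx 𝕜 => 𝕜) 1 γ (v γ)) δ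
    by_cases h : δ = γ
    · rw [h, qv_self, mul_one, lp.single_apply_self]
    · rw [qv_ne h, mul_zero, lp.single_apply_ne _ _ _ h]
  rw [h2]
  exact h1

theorem wf_qv (w : Idx 𝕜 → 𝕜) (K : ℝ) (hw : ∀ γ, ‖w γ‖ ≤ K) (γ : Idx 𝕜) :
    wf w K hw (qv γ) = w γ := by
  classical
  have h1 : wf w K hw (qv γ) = w γ * 1 := wf_single w K hw γ 1
  rw [h1, mul_one]

/-- the vectors of the basis -/
noncomputable def bx : ℕ ⊕ Idx 𝕜 → EE 𝕜
  | Sum.inl a => (lp.single ∞ a 1, 0)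
  | Sum.inr γ => (-((2 : 𝕜) ^ γ.2 • res {i | γ.2 ≤ i} γ.1.1), qv γ)

/-- the functionals of the basis -/
noncomputable def bf : ℕ ⊕ Idx 𝕜 → EE 𝕜 →L[𝕜] 𝕜
  | Sum.inl a => (lp.evalCLM 𝕜 (fun _ : ℕ => 𝕜) ∞ a).comp (ContinuousLinearMap.fst 𝕜 _ _) +
      (wf (wt a) (2 ^ a) (wt_bound a)).comp (ContinuousLinearMap.snd 𝕜 _ _)
  | Sum.inr γ => (lp.evalCLM 𝕜 (fun _ : Idx 𝕜 => 𝕜) 1 γ).comp (ContinuousLinearMap.snd 𝕜 _ _)

theorem bf_inl (a : ℕ) (y : EE 𝕜) :
    bf (Sum.inl a) y = y.1 a + wf (wt a) (2 ^ a) (wt_bound a) y.2 := rfl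

theorem bf_inr (γ : Idx 𝕜) (y : EE 𝕜) : bf (Sum.inr γ) y = y.2 γ := rfl

theorem neg_ap (x : Li 𝕜) (i : ℕ) : (-x) i = -(x i) := by
  rw [lp.coeFn_neg]; rfl

theorem bf_bx_ne {i j : ℕ ⊕ Idx 𝕜} (hij : i ≠ j) : bf i (bx j) = 0 := by
  classical
  rcases i with a | γ <;> rcases j with b | δ
  · rw [bf_inl]
    change (lp.single (E := fun _ : ℕ => 𝕜) ∞ b (1 : 𝕜)) a + wf (wt a) (2 ^ a) (wt_bound a) 0 = 0
    rw [map_zero, add_zero]
    exact lp.single_apply_ne _ _ _ (fun h => hij (by rw [h]))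
  · rw [bf_inl]
    change (-((2 : 𝕜) ^ δ.2 • res {i | δ.2 ≤ i} δ.1.1)) a +
      wf (wt a) (2 ^ a) (wt_bound a) (qv δ) = 0
    rw [wf_qv, neg_ap, smul_ap]
    unfold wt
    by_cases h : δ.2 ≤ a
    · rw [res_mem (show a ∈ {i | δ.2 ≤ i} from h), if_pos h]; ring
    · rw [res_not_mem (show a ∉ {i | δ.2 ≤ i} from h), if_neg h]; ring
  · rw [bf_inr]; rfl
  · rw [bf_inr]
    change (qv δ) γ = 0
    exact qv_ne (fun h => hij (by rw [h]))

theorem bf_bx_self (i : ℕ ⊕ Idx 𝕜) : bf i (bx i) = 1 := by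
  classical
  rcases i with a | γ
  · rw [bf_inl]
    change (lp.single (E := fun _ : ℕ => 𝕜) ∞ a (1 : 𝕜)) a + wf (wt a) (2 ^ a) (wt_bound a) 0 = 1
    rw [map_zero, add_zero, lp.single_apply_self]
  · rw [bf_inr]
    exact qv_self γ

theorem bf_total (y : EE 𝕜) (hy : ∀ i, bf i y = 0) : y = 0 := by
  have h2 : y.2 = 0 := by
    refine lp.ext (funext fun γ => ?_)
    have := hy (Sum.inr γ)
    rwa [bf_inr] at this
  have h1 : y.1 = 0 := by
    refine lp.ext (funext fun a => ?_)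
    have := hy (Sum.inl a)
    rwa [bf_inl, h2, map_zero, add_zero] at this
  exact Prod.ext h1 h2

theorem bx_dense : (Submodule.span 𝕜 (Set.range (bx (𝕜 := 𝕜)))).topologicalClosure = ⊤ := by
  classical
  set S := (Submodule.span 𝕜 (Set.range (bx (𝕜 := 𝕜)))).topologicalClosure with hS
  have hSc : IsClosed (S : Set (EE 𝕜)) := Submodule.isClosed_topologicalClosure _
  have hbx : ∀ i, bx (𝕜 := 𝕜) i ∈ S := fun i =>
    Submodule.le_topologicalClosure _ (Submodule.subset_span ⟨i, rfl⟩)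
  -- the vectors `(h, - 2 ^ -n q (h, n))`
  have s1 : ∀ (h : {h : Li 𝕜 // ‖h‖ ≤ 1}) (n : ℕ),
      ((h.1, -(((1 / 2 : 𝕜) ^ n) • qv (h, n))) : EE 𝕜) ∈ S := by
    intro h n
    have h1 : ((h.1, -(((1 / 2 : 𝕜) ^ n) • qv (h, n))) : EE 𝕜) =
        -(((1 / 2 : 𝕜) ^ n) • bx (Sum.inr (h, n))) +
          ∑ a ∈ Finset.range n, h.1 a • bx (Sum.inl a) := by
      have hb : bx (Sum.inr (h, n)) = ((-((2 : 𝕜) ^ n • res {i | n ≤ i} h.1),
        qv (h, n)) : EE 𝕜) := rfl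
      have ha : ∀ a, bx (𝕜 := 𝕜) (Sum.inl a) = (lp.single ∞ a 1, 0) := fun a => rfl
      refine Prod.ext ?_ ?_
      · rw [Prod.fst_add, Prod.fst_neg, Prod.smul_fst, Prod.fst_sum, hb]
        refine lp.ext (funext fun i => ?_)
        change h.1 i = (-((1 / 2 : 𝕜) ^ n • -((2 : 𝕜) ^ n • res {i | n ≤ i} h.1)) +
          ∑ c ∈ Finset.range n, (h.1 c • bx (Sum.inl c) : EE 𝕜).1) i
        rw [add_ap, neg_ap, smul_ap, neg_ap, smul_ap, lp.coeFn_sum, Finset.sum_apply]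
        have e1 : ∀ c, (h.1 c • bx (Sum.inl c) : EE 𝕜).1 i = if i = c then h.1 c else 0 := by
          intro c
          rw [ha, Prod.smul_fst, smul_ap]
          by_cases hc : i = c
          · subst hc
            rw [lp.single_apply_self, if_pos rfl, mul_one]
          · rw [lp.single_apply_ne _ _ _ hc, if_neg hc, mul_zero]
        rw [Finset.sum_congr rfl fun c _ => e1 c, Finset.sum_ite_eq]
        have e2 : (1 / 2 : 𝕜) ^ n * 2 ^ n = 1 := by
          rw [← mul_pow]; norm_num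
        by_cases hi : n ≤ i
        · rw [res_mem (show i ∈ {i | n ≤ i} from hi), if_neg (by simpa using hi), add_zero]
          calc h.1 i = ((1 / 2 : 𝕜) ^ n * 2 ^ n) * h.1 i := by rw [e2, one_mul]
            _ = _ := by ring
        · rw [res_not_mem (show i ∉ {i | n ≤ i} from hi), if_pos (by simpa using hi)]
          ring
      · rw [Prod.snd_add, Prod.snd_neg, Prod.smul_snd, Prod.snd_sum, hb]
        rw [Finset.sum_eq_zero, add_zero]
        intro a _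
        rw [ha, Prod.smul_snd, smul_zero]
    rw [h1]
    exact S.add_mem (S.neg_mem (S.smul_mem _ (hbx _)))
      (S.sum_mem fun a _ => S.smul_mem _ (hbx _))
  -- the vectors `(h, 0)` with `h` in the ball
  have s2 : ∀ h : {h : Li 𝕜 // ‖h‖ ≤ 1}, ((h.1, 0) : EE 𝕜) ∈ S := by
    intro h
    refine hSc.mem_of_tendsto (b := atTop) (f := fun n : ℕ =>
      ((h.1, -(((1 / 2 : 𝕜) ^ n) • qv (h, n))) : EE 𝕜)) ?_
      (Filter.Eventually.of_forall fun n => s1 h n)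
    refine tendsto_const_nhds.prodMk_nhds ?_
    rw [tendsto_zero_iff_norm_tendsto_zero]
    have h1 : ∀ n : ℕ, ‖-(((1 / 2 : 𝕜) ^ n) • qv (h, n))‖ = (1 / 2 : ℝ) ^ n := by
      intro n
      rw [norm_neg, norm_smul, qv_norm, mul_one, norm_pow]
      congr 1
      simp
    simp only [h1]
    exact tendsto_pow_atTop_nhds_zero_of_lt_one (by norm_num) (by norm_num)
  -- all vectors `(y, 0)`
  have s3 : ∀ y : Li 𝕜, ((y, 0) : EE 𝕜) ∈ S := by
    intro y
    by_cases hy : y = 0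
    · rw [hy]; exact S.zero_mem
    have hy' : ‖y‖ ≠ 0 := norm_ne_zero_iff.2 hy
    have h1 : ‖(((‖y‖⁻¹ : ℝ) : 𝕜)) • y‖ ≤ 1 := by
      rw [norm_smul, RCLike.norm_ofReal, abs_of_nonneg (by positivity), inv_mul_cancel₀ hy']
    have h2 := S.smul_mem ((‖y‖ : ℝ) : 𝕜) (s2 ⟨_, h1⟩)
    have h3 : (((‖y‖ : ℝ) : 𝕜)) • (((((‖y‖⁻¹ : ℝ) : 𝕜)) • y, 0) : EE 𝕜) = (y, 0) := by
      refine Prod.ext ?_ ?_
      · change (((‖y‖ : ℝ) : 𝕜)) • (((‖y‖⁻¹ : ℝ) : 𝕜)) • y = y
        rw [smul_smul, ← RCLike.ofReal_mul, mul_inv_cancel₀ hy', RCLike.ofReal_one, one_smul]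
      · change (((‖y‖ : ℝ) : 𝕜)) • (0 : L1 𝕜 (Idx 𝕜)) = 0
        rw [smul_zero]
    rwa [h3] at h2
  -- the unit vectors of the second factor
  have s4 : ∀ γ : Idx 𝕜, ((0, qv γ) : EE 𝕜) ∈ S := by
    intro γ
    have h1 := S.add_mem (hbx (Sum.inr γ)) (s3 ((2 : 𝕜) ^ γ.2 • res {i | γ.2 ≤ i} γ.1.1))
    have h2 : bx (Sum.inr γ) + (((2 : 𝕜) ^ γ.2 • res {i | γ.2 ≤ i} γ.1.1, 0) : EE 𝕜) =
        (0, qv γ) := by
      refine Prod.ext ?_ ?_
      · change -((2 : 𝕜) ^ γ.2 • res {i | γ.2 ≤ i} γ.1.1) +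
          (2 : 𝕜) ^ γ.2 • res {i | γ.2 ≤ i} γ.1.1 = 0
        rw [neg_add_cancel]
      · change qv γ + 0 = qv γ
        rw [add_zero]
    rwa [h2] at h1
  -- the second factor
  have s5 : ∀ v : L1 𝕜 (Idx 𝕜), ((0, v) : EE 𝕜) ∈ S := by
    intro v
    have h2 := (qv_hasSum v).mapL (ContinuousLinearMap.inr 𝕜 (Li 𝕜) (L1 𝕜 (Idx 𝕜)))
    have h2' : Tendsto (fun s : Finset (Idx 𝕜) => ∑ γ ∈ s,
        ContinuousLinearMap.inr 𝕜 (Li 𝕜) (L1 𝕜 (Idx 𝕜)) (v γ • qv γ)) atTop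
        (𝓝 (ContinuousLinearMap.inr 𝕜 (Li 𝕜) (L1 𝕜 (Idx 𝕜)) v)) := by
      simpa [HasSum, SummationFilter.unconditional_filter] using h2
    refine hSc.mem_of_tendsto h2' (Filter.Eventually.of_forall fun s => ?_)
    refine S.sum_mem fun γ _ => ?_
    have h3 : ContinuousLinearMap.inr 𝕜 (Li 𝕜) (L1 𝕜 (Idx 𝕜)) (v γ • qv γ) =
        v γ • ((0, qv γ) : EE 𝕜) := by
      rw [map_smul]
      rfl
    rw [h3]
    exact S.smul_mem _ (s4 γ)
  rw [eq_top_iff]
  rintro ⟨y, v⟩ -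
  have h1 := S.add_mem (s3 y) (s5 v)
  rwa [Prod.mk_add_mk, add_zero, zero_add] at h1

theorem ee_no_lur (N : Seminorm 𝕜 (EE 𝕜)) {c C : ℝ} (hc : 0 < c)
    (hN : ∀ y, c * ‖y‖ ≤ N y ∧ N y ≤ C * ‖y‖) : ¬ IsLUR N := by
  intro hl
  have hnorm : ∀ h : Li 𝕜, ‖((h, 0) : EE 𝕜)‖ = ‖h‖ := by
    intro h
    rw [Prod.norm_mk, norm_zero]
    exact max_eq_left (norm_nonneg _)
  refine linf_no_lur (N.comp (LinearMap.inl 𝕜 (Li 𝕜) (L1 𝕜 (Idx 𝕜)))) hc (C := C) ?_ ?_
  · intro h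
    have := hN (h, 0)
    rw [hnorm] at this
    exact this
  · intro x u hx hu hlim
    have h1 := hl (x, 0) (fun n => (u n, 0)) hx hu
    have h2 : ∀ n, N ((u n, 0) + (x, 0)) =
        (N.comp (LinearMap.inl 𝕜 (Li 𝕜) (L1 𝕜 (Idx 𝕜)))) (u n + x) := by
      intro n
      rw [Prod.mk_add_mk, add_zero]; rfl
    have h3 : ∀ n, N ((u n, 0) - (x, 0)) =
        (N.comp (LinearMap.inl 𝕜 (Li 𝕜) (L1 𝕜 (Idx 𝕜)))) (u n - x) := by
      intro n
      rw [Prod.mk_sub_mk, sub_zero]; rfl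
    simp only [h2, h3] at h1
    exact h1 hlim

end Main

/-- **Negative answer to the question of John and Zizler.**  For `𝕜 = ℝ` and for `𝕜 = ℂ` there is a
Banach space with an extended Markushevich basis on which no equivalent norm is locally uniformly
rotund. -/
theorem result (𝕜 : Type) [RCLike 𝕜] :
    ∃ (E : Type) (_ : NormedAddCommGroup E) (_ : NormedSpace 𝕜 E) (_ : CompleteSpace E)
      (I : Type) (x : I → E) (f : I → E →L[𝕜] 𝕜),
      (∀ i, f i (x i) = 1) ∧ (∀ i j, i ≠ j → f i (x j) = 0) ∧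
      (Submodule.span 𝕜 (Set.range x)).topologicalClosure = ⊤ ∧
      (∀ y, (∀ i, f i y = 0) → y = 0) ∧
      ∀ N : Seminorm 𝕜 E,
        (∃ c C : ℝ, 0 < c ∧ 0 < C ∧ ∀ y, c * ‖y‖ ≤ N y ∧ N y ≤ C * ‖y‖) → ¬ IsLUR N :=
  ⟨EE 𝕜, inferInstance, inferInstance, inferInstance, ℕ ⊕ Idx 𝕜, bx, bf, bf_bx_self,
    fun _ _ h => bf_bx_ne h, bx_dense, bf_total, fun N ⟨_, _, hc, _, hN⟩ => ee_no_lur N hc hN⟩

end Pool.Agent.Results.MP_ea77cd_an.MBasisNoLUR
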